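import Pool.Agent.H870R4.Noz.Stmts

set_option autoImplicit false

open MeasureTheory Set

namespace H870N.Prof

theorem tent_cont (a b : ℝ) : Continuous (tent a b) := by
  unfold tent
  fun_prop

theorem tent_nonneg {a b : ℝ} (hab : a < b) (x : ℝ) : 0 ≤ tent a b x := by
  unfold tent
  have : 0 < b - a := by linarith
  exact mul_nonneg (le_max_left _ _) (by positivity)

theorem tent_zero {a b x : ℝ} (hab : a < b) (h : x ≤ a ∨ b ≤ x) : tent a b x = 0 := by
  unfold tent
  have h1 : (x - a) * (b - x) ≤ 0 := by
    rcases h with h | h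
    · nlinarith
    · nlinarith
  rw [max_eq_left h1, zero_mul]

theorem tent_le {a b : ℝ} (hab : a < b) (x : ℝ) :
    tent a b x ≤ (b - a) ^ 2 * (6 / (b - a) ^ 3) := by
  unfold tent
  have h0 : 0 < b - a := by linarith
  apply mul_le_mul_of_nonneg_right _ (by positivity)
  apply max_le (by positivity)
  nlinarith [sq_nonneg (x - a - (b - x)), sq_nonneg (b - a)]

theorem tent_ii (a b s t : ℝ) : IntervalIntegrable (tent a b) volume s t :=
  (tent_cont a b).intervalIntegrable _ _

theorem tent_int {a b : ℝ} (hab : a < b) : ∫ x in a..b, tent a b x = 1 := by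
  have h0 : b - a ≠ 0 := by linarith
  have h1 : ∫ x in a..b, tent a b x = ∫ x in a..b, ((x - a) * (b - x)) * (6 / (b - a) ^ 3) := by
    apply intervalIntegral.integral_congr
    intro x hx
    rw [uIcc_of_le hab.le] at hx
    unfold tent
    simp only
    rw [max_eq_right (mul_nonneg (by linarith [hx.1]) (by linarith [hx.2]))]
  rw [h1]
  have h2 : ∀ x ∈ uIcc a b, HasDerivAt
      (fun x => (-(x ^ 3) / 3 + (a + b) * x ^ 2 / 2 - a * b * x) * (6 / (b - a) ^ 3))
      (((x - a) * (b - x)) * (6 / (b - a) ^ 3)) x := by
    intro x _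
    have h3 : HasDerivAt (fun x : ℝ => -(x ^ 3) / 3 + (a + b) * x ^ 2 / 2 - a * b * x)
        (-(3 * x ^ 2) / 3 + (a + b) * (2 * x) / 2 - a * b) x := by
      have e1 : HasDerivAt (fun x : ℝ => x ^ 3) (3 * x ^ 2) x := by
        simpa using hasDerivAt_pow 3 x
      have e2 : HasDerivAt (fun x : ℝ => x ^ 2) (2 * x) x := by
        simpa using hasDerivAt_pow 2 x
      have e3 := ((e1.neg.div_const 3).add ((e2.const_mul (a + b)).div_const 2)).sub
        ((hasDerivAt_id x).const_mul (a * b))
      exact e3.congr_deriv (by rw [mul_one])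
    have h4 := h3.mul_const (6 / (b - a) ^ 3)
    exact h4.congr_deriv (by ring)
  rw [intervalIntegral.integral_eq_sub_of_hasDerivAt h2 (by
    apply Continuous.intervalIntegrable
    fun_prop)]
  field_simp
  ring

theorem zero_left {p q s x : ℝ} (hpq : p < q) (hs : s ≤ p) (hx : x ≤ p) :
    ∫ y in s..x, tent p q y = 0 := by
  have : ∫ y in s..x, tent p q y = ∫ y in s..x, (0 : ℝ) := by
    apply intervalIntegral.integral_congr
    intro y hy
    apply tent_zero hpq
    left
    exact hy.2.trans (max_le hs hx)
  rw [this]; simp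

theorem zero_right {p q s x : ℝ} (hpq : p < q) (hs : q ≤ s) (hx : q ≤ x) :
    ∫ y in s..x, tent p q y = 0 := by
  have : ∫ y in s..x, tent p q y = ∫ y in s..x, (0 : ℝ) := by
    apply intervalIntegral.integral_congr
    intro y hy
    apply tent_zero hpq
    right
    exact (le_min hs hx).trans hy.1
  rw [this]; simp

theorem one_right {p q s x : ℝ} (hpq : p < q) (hs : s ≤ p) (hx : q ≤ x) :
    ∫ y in s..x, tent p q y = 1 := by
  rw [← intervalIntegral.integral_add_adjacent_intervals (tent_ii p q s p) (tent_ii p q p x),
    ← intervalIntegral.integral_add_adjacent_intervals (tent_ii p q p q) (tent_ii p q q x),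
    zero_left hpq hs le_rfl, tent_int hpq, zero_right hpq le_rfl hx]
  ring

theorem mem01 {p q s : ℝ} (hpq : p < q) (hs : s ≤ p) (x : ℝ) :
    0 ≤ ∫ y in s..x, tent p q y ∧ ∫ y in s..x, tent p q y ≤ 1 := by
  rcases le_total x p with h | h
  · rw [zero_left hpq hs h]; exact ⟨le_rfl, zero_le_one⟩
  rcases le_total q x with h' | h'
  · rw [one_right hpq hs h']; exact ⟨zero_le_one, le_rfl⟩
  · constructor
    · exact intervalIntegral.integral_nonneg (hs.trans h) fun y _ => tent_nonneg hpq y
    · have h1 := one_right hpq hs (le_refl q)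
      rw [← intervalIntegral.integral_add_adjacent_intervals (tent_ii p q s x)
        (tent_ii p q x q)] at h1
      have h2 : 0 ≤ ∫ y in x..q, tent p q y :=
        intervalIntegral.integral_nonneg h' fun y _ => tent_nonneg hpq y
      linarith

theorem taskProf : TaskProf := by
  intro a b c d T hab hbc hcd hT
  have hcont : Continuous (gp a b c d) := by
    unfold gp
    exact (tent_cont a b).sub (tent_cont c d)
  have hgg : ∀ x, gg a b c d x = (∫ y in a..x, tent a b y) - ∫ y in a..x, tent c d y := by
    intro x
    unfold gg gp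
    exact intervalIntegral.integral_sub (tent_ii a b a x) (tent_ii c d a x)
  have hac : a ≤ c := by linarith
  refine ⟨hcont, ?_, ?_, ?_, ?_, ?_, ?_, ?_, ?_, ?_, ?_⟩
  · intro x
    exact (hcont.integral_hasStrictDerivAt a x).hasDerivAt
  · intro x hx
    rw [hgg, zero_left hab le_rfl hx, zero_left hcd hac (by linarith), sub_zero]
  · intro x hx
    rw [hgg, one_right hab le_rfl (by linarith), one_right hcd hac hx, sub_self]
  · intro x
    rw [hgg]
    have h1 := mem01 hab le_rfl x
    have h2 := mem01 hcd hac x
    constructor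
    · rcases le_total x c with h | h
      · rw [zero_left hcd hac h]; linarith [h1.1]
      · rw [one_right hab le_rfl (by linarith : b ≤ x)]; linarith [h2.2]
    · linarith [h1.2, h2.1]
  · intro x hx
    unfold gp
    have h1 : tent a b x = 0 := by
      apply tent_zero hab
      rcases hx with h | h | h
      · left; exact h
      · right; linarith
      · right; exact h.1
    have h2 : tent c d x = 0 := by
      apply tent_zero hcd
      rcases hx with h | h | h
      · left; linarith
      · right; exact h
      · left; exact h.2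
    rw [h1, h2, sub_zero]
  · intro x h1 h2
    unfold gp
    rw [tent_zero hcd (Or.inl (by linarith)), sub_zero]
    exact tent_nonneg hab x
  · intro x h1 h2
    unfold gp
    rw [tent_zero hab (Or.inr (by linarith)), zero_sub]
    have := tent_nonneg hcd x
    linarith
  · refine ⟨(b - a) ^ 2 * (6 / (b - a) ^ 3) + (d - c) ^ 2 * (6 / (d - c) ^ 3), fun x => ?_⟩
    unfold gp
    have h1 := tent_nonneg hab x
    have h2 := tent_nonneg hcd x
    have h3 := tent_le hab x
    have h4 := tent_le hcd x
    rw [abs_le]
    constructor <;> linarith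
  · unfold gp
    rw [intervalIntegral.integral_sub (tent_ii a b a b) (tent_ii c d a b), tent_int hab,
      zero_left hcd hac (by linarith), sub_zero]
  · unfold gp
    rw [intervalIntegral.integral_sub (tent_ii a b c d) (tent_ii c d c d), tent_int hcd,
      zero_right hab (by linarith) (by linarith), zero_sub]

end H870N.Prof
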